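import Pool.Agent.H751Z.Ill.Main

namespace Pool.Agent.Results.MP_eba1ef_gt.APermInvariant

/-- Hadwiger's covering bound for every convex body that is invariant under all permutations of
the coordinates of some affine frame `o, b`. -/
theorem result (d : ℕ) (hd : 1 ≤ d) (K : Set (EuclideanSpace ℝ (Fin d)))
    (hK : Convex ℝ K) (hKc : IsCompact K) (hKi : (interior K).Nonempty)
    (o : EuclideanSpace ℝ (Fin d)) (b : Module.Basis (Fin d) ℝ (EuclideanSpace ℝ (Fin d)))
    (hs : ∀ (σ : Equiv.Perm (Fin d)) (t : Fin d → ℝ),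
      o + ∑ i, t i • b i ∈ K → o + ∑ i, t (σ i) • b i ∈ K) :
    ∃ T : Finset (EuclideanSpace ℝ (Fin d)), T.card ≤ 2 ^ d ∧
      K ⊆ ⋃ t ∈ T, (fun x => t + x) '' interior K :=
  Pool.Agent.H751Z.Ill.main d hd K hK hKc hKi o b hs

end Pool.Agent.Results.MP_eba1ef_gt.APermInvariant
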